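import Pool.Agent.H37.CNH.Stmts

/-!
# Row HCN: arithmetic

Instead of counting: with `D j = C - i j` and `p ^ t` the exact power of `p` in `D (n - 1)` (`t < n`), also
`p ^ t` is the exact power of `p` in `D t`; take `s = D t` modulo `p ^ (n + 1)`.
-/

set_option autoImplicit false

namespace Pool.CND

open Finset

theorem hcn_thm : S_HCN := by
  intro p n i C hp hn hi hC
  have : Fact p.Prime := ⟨hp⟩
  -- the exact power in `C - i (n - 1)`
  have hex : ∃ t : ℕ, ¬ ((p ^ (t + 1) : ℕ) : ℤ) ∣ C - i (n - 1) := by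
    refine ⟨n - 1, ?_⟩
    rwa [Nat.sub_add_cancel hn]
  classical
  set t := Nat.find hex with ht
  have h1 : ¬ ((p ^ (t + 1) : ℕ) : ℤ) ∣ C - i (n - 1) := Nat.find_spec hex
  have htn : t ≤ n - 1 := by
    apply Nat.find_min' hex
    rwa [Nat.sub_add_cancel hn]
  have h2 : ((p ^ t : ℕ) : ℤ) ∣ C - i (n - 1) := by
    rcases Nat.eq_zero_or_pos t with h | h
    · rw [h, pow_zero]
      exact one_dvd _
    · have h3 := Nat.find_min hex (m := t - 1) (by omega)
      rw [not_not, Nat.sub_add_cancel h] at h3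
      exact h3
  have hchain : ∀ m, t ≤ m → m ≤ n - 1 → ((p ^ (t + 1) : ℕ) : ℤ) ∣ (C - i m) - (C - i t) := by
    intro m htm
    induction m, htm using Nat.le_induction with
    | base =>
      intro _
      rw [sub_self]
      exact dvd_zero _
    | succ m htm ih =>
      intro hm
      have h3 := ih (by omega)
      have h4 := hi (m + 1) (by omega) (by omega)
      rw [Nat.add_sub_cancel] at h4
      have h5 : ((p ^ (t + 1) : ℕ) : ℤ) ∣ i (m + 1) - i m :=
        dvd_trans (by exact_mod_cast pow_dvd_pow p (by omega)) h4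
      have h6 : (C - i (m + 1)) - (C - i t) = ((C - i m) - (C - i t)) - (i (m + 1) - i m) := by
        ring
      rw [h6]
      exact dvd_sub h3 h5
  have hc := hchain (n - 1) htn le_rfl
  have h3 : ¬ ((p ^ (t + 1) : ℕ) : ℤ) ∣ C - i t := by
    intro h
    apply h1
    have := dvd_add hc h
    rwa [sub_add_cancel] at this
  have h4 : ((p ^ t : ℕ) : ℤ) ∣ C - i t := by
    have h5 : ((p ^ t : ℕ) : ℤ) ∣ (C - i (n - 1)) - (C - i t) :=
      dvd_trans (by exact_mod_cast pow_dvd_pow p (Nat.le_succ t)) hc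
    have := dvd_sub h2 h5
    rwa [sub_sub_cancel] at this
  -- the number `s`
  have hpos : (0 : ℤ) < ((p ^ (n + 1) : ℕ) : ℤ) := by
    exact_mod_cast pow_pos hp.pos (n + 1)
  obtain ⟨s, hs⟩ : ∃ s : ℕ, (s : ℤ) = (C - i t) % ((p ^ (n + 1) : ℕ) : ℤ) :=
    ⟨((C - i t) % ((p ^ (n + 1) : ℕ) : ℤ)).toNat,
      Int.toNat_of_nonneg (Int.emod_nonneg _ hpos.ne')⟩
  have hmod : ((p ^ (n + 1) : ℕ) : ℤ) ∣ (C - i t) - s := by
    rw [hs]
    exact Int.dvd_self_sub_emod
  have hslt : s < p ^ (n + 1) := by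
    have := Int.emod_lt_of_pos (C - i t) hpos
    rw [← hs] at this
    exact_mod_cast this
  have hd : ∀ j, j ≤ n + 1 → (((p ^ j : ℕ) : ℤ) ∣ C - i t ↔ p ^ j ∣ s) := by
    intro j hj
    have h5 : ((p ^ j : ℕ) : ℤ) ∣ (C - i t) - s :=
      dvd_trans (by exact_mod_cast pow_dvd_pow p hj) hmod
    constructor
    · intro h
      have := dvd_sub h h5
      rw [sub_sub_cancel] at this
      exact_mod_cast this
    · intro h
      have h6 : ((p ^ j : ℕ) : ℤ) ∣ (s : ℤ) := by exact_mod_cast h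
      have := dvd_add h5 h6
      rwa [sub_add_cancel] at this
  have d1 : p ^ t ∣ s := (hd t (by omega)).1 h4
  have d2 : ¬ p ^ (t + 1) ∣ s := fun h => h3 ((hd (t + 1) (by omega)).2 h)
  have hs0 : s ≠ 0 := by
    intro h
    rw [h] at d2
    exact d2 (dvd_zero _)
  have hv : padicValNat p s = t := by
    apply le_antisymm
    · by_contra hlt
      exact d2 ((padicValNat_dvd_iff_le hs0).2 (by omega))
    · exact (padicValNat_dvd_iff_le hs0).1 d1
  refine ⟨s, Nat.one_le_iff_ne_zero.2 hs0, hslt, by rw [hv]; omega, ?_⟩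
  rw [hv]
  have h7 : (s : ℤ) + i t - C = -((C - i t) - s) := by ring
  rw [h7]
  exact (dvd_neg.2 hmod)

end Pool.CND
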