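import Pool.Agent.H37.CNH.Stmts

/-!
# Row HXS: `x = ∏_{j < s} γ ^ j π`
-/

set_option autoImplicit false

namespace Pool.CND

open Finset

theorem hxs_thm : S_HXS := by
  intro k L _ _ _ P γ s hs hF hγ hne
  set π := P.pi with hπ
  have hπ0 : π ≠ 0 := P.pi_ne
  have hπ1 : P.ord π = 1 := P.ord_pi
  have hne' : (γ ^ s) π ≠ π := hne
  have hj0 : ∀ j : ℕ, (γ ^ j) π ≠ 0 := fun j => (map_ne_zero _).2 hπ0
  have hjo : ∀ j : ℕ, P.ord ((γ ^ j) π) = 1 := fun j => by rw [hF.pow j π hπ0, hπ1]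
  -- the product of the first `r` conjugates
  have hx0 : ∀ r : ℕ, ∏ j ∈ range r, (γ ^ j) π ≠ 0 := fun r =>
    Finset.prod_ne_zero_iff.2 (fun j _ => hj0 j)
  have hxo : ∀ r : ℕ, P.ord (∏ j ∈ range r, (γ ^ j) π) = r := by
    intro r
    induction r with
    | zero =>
      rw [Finset.prod_range_zero, P.ord_one]
      rfl
    | succ r ih =>
      rw [Finset.prod_range_succ, P.ord_mul _ _ (hx0 r) (hj0 r), ih, hjo r]
      push_cast
      ring
  have hxγ : ∀ r : ℕ, π * γ (∏ j ∈ range r, (γ ^ j) π) =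
      (∏ j ∈ range r, (γ ^ j) π) * (γ ^ r) π := by
    intro r
    induction r with
    | zero =>
      rw [Finset.prod_range_zero, map_one, pow_zero, AlgEquiv.one_apply]
      ring
    | succ r ih =>
      rw [Finset.prod_range_succ, map_mul, ← mul_assoc, ih]
      have : γ ((γ ^ r) π) = (γ ^ (r + 1)) π := by
        rw [pow_succ']
        rfl
      rw [this]
  set x := ∏ j ∈ range s, (γ ^ j) π with hx
  have key : π * (γ x - x) = x * ((γ ^ s) π - π) := by
    rw [mul_sub, hxγ s]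
    ring
  have hd0 : (γ ^ s) π - π ≠ 0 := sub_ne_zero.2 hne'
  have hγx : γ x - x ≠ 0 := by
    intro h
    rw [h, mul_zero] at key
    exact mul_ne_zero (hx0 s) hd0 key.symm
  refine ⟨x, hx0 s, hxo s, sub_ne_zero.1 hγx, ?_⟩
  have h1 := congrArg P.ord key
  rw [P.ord_mul _ _ hπ0 hγx, P.ord_mul _ _ (hx0 s) hd0, hπ1, hxo s] at h1
  have h2 : P.b (γ ^ s) = P.ord ((γ ^ s) π - π) - 1 := rfl
  rw [h2]
  linarith

end Pool.CND
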